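import Pool.Agent.U856.BM.Stm2

set_option autoImplicit false

/-!
Project BM, package GN: generic parameters are dense.
-/

namespace Pool.Agent.U739.BM.GN

open Pool.Agent.U856.BM

/-- near every point there is a point at which countably many given nonzero polynomials do not
vanish -/
lemma avoid : ∀ (n : ℕ) (𝓕 : Set (MvPolynomial (Fin n) ℝ)), 𝓕.Countable → (∀ F ∈ 𝓕, F ≠ 0) →
    ∀ (x : Fin n → ℝ) (ε : ℝ), 0 < ε → ∃ y : Fin n → ℝ, (∀ i, |y i - x i| < ε) ∧
      ∀ F ∈ 𝓕, MvPolynomial.eval y F ≠ 0 := by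
  intro n
  induction n with
  | zero =>
    intro 𝓕 _ h0 x ε hε
    refine ⟨x, fun i => i.elim0, fun F hF h => h0 F hF ?_⟩
    have h1 := MvPolynomial.eq_C_of_isEmpty F
    rw [h1, MvPolynomial.eval_C] at h
    rw [h1, h, map_zero]
  | succ n ih =>
    intro 𝓕 hc h0 x ε hε
    set 𝓖 : Set (MvPolynomial (Fin n) ℝ) :=
      (fun F => (MvPolynomial.finSuccEquiv ℝ n F).leadingCoeff) '' 𝓕 with h𝓖
    have hP : ∀ F ∈ 𝓕, MvPolynomial.finSuccEquiv ℝ n F ≠ 0 := by
      intro F hF h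
      apply h0 F hF
      exact (MvPolynomial.finSuccEquiv ℝ n).injective (by rw [h, map_zero])
    obtain ⟨y, hy, hy0⟩ := ih 𝓖 (hc.image _) (by
      rintro _ ⟨F, hF, rfl⟩
      exact Polynomial.leadingCoeff_ne_zero.2 (hP F hF)) (fun i => x i.succ) ε hε
    set bad : Set ℝ := ⋃ F ∈ 𝓕, {t | Polynomial.eval t
      (Polynomial.map (MvPolynomial.eval y) (MvPolynomial.finSuccEquiv ℝ n F)) = 0} with hbad
    have hbc : bad.Countable := by
      refine hc.biUnion fun F hF => ?_
      have hne : Polynomial.map (MvPolynomial.eval y) (MvPolynomial.finSuccEquiv ℝ n F) ≠ 0 := by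
        intro h
        have h1 := hy0 _ ⟨F, hF, rfl⟩
        have h2 := Polynomial.leadingCoeff_map_of_leadingCoeff_ne_zero
          (p := MvPolynomial.finSuccEquiv ℝ n F) (MvPolynomial.eval y) h1
        rw [h, Polynomial.leadingCoeff_zero] at h2
        exact h1 h2.symm
      refine Set.Countable.mono ?_ ((Polynomial.map (MvPolynomial.eval y)
        (MvPolynomial.finSuccEquiv ℝ n F)).roots.toFinset.countable_toSet)
      intro t ht
      rw [Finset.mem_coe, Multiset.mem_toFinset, Polynomial.mem_roots hne]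
      exact ht
    obtain ⟨t, ht1, ht2⟩ := (hbc.dense_compl ℝ).exists_mem_open Metric.isOpen_ball
      ⟨x 0, Metric.mem_ball_self hε⟩
    refine ⟨Fin.cons t y, fun i => ?_, fun F hF => ?_⟩
    · refine Fin.cases ?_ (fun j => ?_) i
      · rw [Fin.cons_zero]
        exact ht2
      · rw [Fin.cons_succ]
        exact hy j
    · rw [MvPolynomial.eval_eq_eval_mv_eval']
      intro h
      exact ht1 (Set.mem_biUnion hF h)

lemma countable_alg (n : ℕ) :
    {F : MvPolynomial (Fin n) ℝ | ∀ m, IsAlgebraic ℚ (F.coeff m)}.Countable := by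
  have hS : {x : ℝ | IsAlgebraic ℚ x}.Countable := Algebraic.countable ℚ ℝ
  haveI : Countable {x : ℝ | IsAlgebraic ℚ x} := hS.to_subtype
  refine Set.Countable.mono ?_ (Set.countable_range
    (fun l : List ((Fin n →₀ ℕ) × {x : ℝ | IsAlgebraic ℚ x}) =>
      (l.map fun p => MvPolynomial.monomial p.1 (p.2 : ℝ)).sum))
  intro F hF
  refine ⟨F.support.toList.map fun m => (m, ⟨F.coeff m, hF m⟩), ?_⟩
  show ((F.support.toList.map fun m => ((m, ⟨F.coeff m, hF m⟩) :
    (Fin n →₀ ℕ) × {x : ℝ | IsAlgebraic ℚ x})).map fun p =>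
      MvPolynomial.monomial p.1 (p.2 : ℝ)).sum = F
  rw [List.map_map]
  have h1 : (F.support.toList.map ((fun p : (Fin n →₀ ℕ) × {x : ℝ | IsAlgebraic ℚ x} =>
      MvPolynomial.monomial p.1 (p.2 : ℝ)) ∘ fun m => (m, ⟨F.coeff m, hF m⟩))).sum =
      ∑ m ∈ F.support, MvPolynomial.monomial m (F.coeff m) := by
    rw [← Finset.sum_map_toList]
    rfl
  rw [h1, MvPolynomial.support_sum_monomial_coeff]

theorem t_GN : S_GN := by
  intro a b v ε hε
  obtain ⟨y, hy, hy0⟩ := avoid 3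
    {F : MvPolynomial (Fin 3) ℝ | (∀ m, IsAlgebraic ℚ (F.coeff m)) ∧ F ≠ 0}
    ((countable_alg 3).mono fun F hF => hF.1) (fun F hF => hF.2) ![a, b, v] ε hε
  refine ⟨y 0, y 1, y 2, by simpa using hy 0, by simpa using hy 1, by simpa using hy 2, ?_⟩
  intro F hF hF0
  have e : ![y 0, y 1, y 2] = y := by
    ext i
    fin_cases i <;> rfl
  rw [e] at hF0
  by_contra hne
  exact hy0 F ⟨hF, hne⟩ hF0

end Pool.Agent.U739.BM.GN
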